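import Pool.Agent.X26.LF.Stm

/-! Part NPP of project LF. -/

set_option autoImplicit false

open Finset

namespace Pool.Agent.X73.LF

open Pool.Agent.X26.LF

theorem t_NPP : S_NPP := by
  intro m u v hm hu hv hgu hgv hno
  set M : ℤ := ∑ i, |u i| + ∑ i, |v i| with hM
  have hMu : ∀ i, |u i| ≤ M := fun i => by
    have h1 := Finset.single_le_sum (f := fun i => |u i|) (fun i _ => abs_nonneg _)
      (Finset.mem_univ i)
    have h2 : 0 ≤ ∑ i, |v i| := Finset.sum_nonneg fun i _ => abs_nonneg _
    linarith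
  have hMv : ∀ i, |v i| ≤ M := fun i => by
    have h1 := Finset.single_le_sum (f := fun i => |v i|) (fun i _ => abs_nonneg _)
      (Finset.mem_univ i)
    have h2 : 0 ≤ ∑ i, |u i| := Finset.sum_nonneg fun i _ => abs_nonneg _
    linarith
  have hM0 : 0 ≤ M :=
    add_nonneg (Finset.sum_nonneg fun i _ => abs_nonneg _)
      (Finset.sum_nonneg fun i _ => abs_nonneg _)
  refine ⟨(2 * M ^ 2 + M + 1).toNat, fun p hp hP => ?_⟩
  have hP' : 2 * M ^ 2 + M + 1 ≤ (p : ℤ) := Int.toNat_le.1 hP
  have : Fact p.Prime := ⟨hp⟩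
  have hzero : ∀ z : ℤ, |z| ≤ 2 * M ^ 2 + M → (z : ZMod p) = 0 → z = 0 := by
    intro z hz h0
    rw [ZMod.intCast_zmod_eq_zero_iff_dvd] at h0
    exact Int.eq_zero_of_abs_lt_dvd h0 (by linarith)
  refine ⟨fun i h0 => hu i (hzero _ ((hMu i).trans (by nlinarith)) h0), fun σ l hl => ?_⟩
  have key : ∀ i k, v i * u (σ k) = v k * u (σ i) := by
    intro i k
    have h1 : ((v i * u (σ k) - v k * u (σ i) : ℤ) : ZMod p) = 0 := by
      push_cast
      rw [hl i, hl k]; ring
    have h3 : |v i * u (σ k) - v k * u (σ i)| ≤ 2 * M ^ 2 + M := by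
      calc |v i * u (σ k) - v k * u (σ i)| ≤ |v i * u (σ k)| + |v k * u (σ i)| := abs_sub _ _
        _ = |v i| * |u (σ k)| + |v k| * |u (σ i)| := by rw [abs_mul, abs_mul]
        _ ≤ M * M + M * M :=
            add_le_add (mul_le_mul (hMv i) (hMu _) (abs_nonneg _) hM0)
              (mul_le_mul (hMv k) (hMu _) (abs_nonneg _) hM0)
        _ ≤ 2 * M ^ 2 + M := by nlinarith
    have h2 := hzero _ h3 h1
    linarith
  have hgw : (univ : Finset (Fin m)).gcd (fun i => u (σ i)) = 1 := by
    have h1 := Finset.gcd_image (f := u) (g := σ) (univ : Finset (Fin m))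
    rw [Finset.image_univ_of_surjective σ.surjective] at h1
    rw [← hgu, h1]
    rfl
  obtain ⟨i0⟩ : Nonempty (Fin m) := ⟨⟨0, hm⟩⟩
  have hnorm : normalize (v i0) = normalize (u (σ i0)) := by
    have h1 : (univ : Finset (Fin m)).gcd (fun k => v i0 * u (σ k)) = normalize (v i0) := by
      rw [Finset.gcd_mul_left, hgw, mul_one]
    have h2 : (univ : Finset (Fin m)).gcd (fun k => v k * u (σ i0)) = normalize (u (σ i0)) := by
      rw [Finset.gcd_mul_right, hgv, one_mul]
    rw [← h1, ← h2]
    congr 1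
    funext k
    exact key i0 k
  rw [normalize_eq_normalize_iff_associated, Int.associated_iff] at hnorm
  have hw0 : u (σ i0) ≠ 0 := hu _
  rcases hnorm with h | h
  · exact hno ⟨σ, Or.inl fun k => by
      have := key i0 k
      rw [h] at this
      have h3 : u (σ i0) * (v k - u (σ k)) = 0 := by linarith
      rcases mul_eq_zero.1 h3 with h4 | h4
      · exact absurd h4 hw0
      · linarith⟩
  · exact hno ⟨σ, Or.inr fun k => by
      have := key i0 k
      rw [h] at this
      have h3 : u (σ i0) * (v k + u (σ k)) = 0 := by linarith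
      rcases mul_eq_zero.1 h3 with h4 | h4
      · exact absurd h4 hw0
      · linarith⟩

end Pool.Agent.X73.LF
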